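import Pool.Agent.Helper98.HQ.Spec

/-! Part PERT: one step of the perturbed chain. -/

set_option autoImplicit false

open MeasureTheory Filter Topology
open scoped ENNReal NNReal

namespace Pool.Agent.Helper32.HQ.PERT

open Pool.Agent.Helper98.HQ

theorem op_le_one {k : ℕ} {ν : Measure (ℝ × ℝ)} [IsProbabilityMeasure ν] (c : ℝ)
    {φ : (Fin k → ℝ) → ℝ≥0∞} (h1 : ∀ x, φ x ≤ 1) (w : Fin k → ℝ) : op ν c φ w ≤ 1 := by
  unfold op
  calc ∫⁻ u, φ (stp c w u) ∂ν ≤ ∫⁻ _, 1 ∂ν := lintegral_mono fun u => h1 _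
    _ = 1 := by simp

theorem lip_stp (hKWB : S_KWB) {k : ℕ} {L a c d : ℝ} (hL : 0 ≤ L)
    {φ : (Fin k → ℝ) → ℝ≥0∞} (hφ : Lip L φ) (h : |c - d| ≤ 1 - a) (w : Fin k → ℝ) (u : ℝ × ℝ) :
    φ (stp c w u) ≤ φ (stp d w u) + ENNReal.ofReal (L * (1 - a) * max u.2 0) := by
  refine (hφ _ _).trans (add_le_add le_rfl (ENNReal.ofReal_le_ofReal ?_))
  have h1 := (hKWB k w w (c * max u.2 0) (d * max u.2 0) (max u.1 0)).2.2
  have h2 : |c * max u.2 0 - d * max u.2 0| ≤ (1 - a) * max u.2 0 := by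
    rw [← sub_mul, abs_mul, abs_of_nonneg (le_max_right u.2 0)]
    exact mul_le_mul_of_nonneg_right h (le_max_right _ _)
  have h3 : ∑ i, |stp c w u i - stp d w u i| ≤ (1 - a) * max u.2 0 := by
    refine (h1.trans ?_)
    simpa using h2
  calc L * ∑ i, |stp c w u i - stp d w u i| ≤ L * ((1 - a) * max u.2 0) :=
        mul_le_mul_of_nonneg_left h3 hL
    _ = L * (1 - a) * max u.2 0 := by ring

theorem err {k : ℕ} {ν : Measure (ℝ × ℝ)} (hν : Inp k ν) {L a : ℝ} (hL : 0 ≤ L) (ha : a ≤ 1) :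
    ∫⁻ u, ENNReal.ofReal (L * (1 - a) * max u.2 0) ∂ν =
      ENNReal.ofReal (L * (1 - a) * ∫ u, u.2 ∂ν) := by
  haveI := hν.prob
  have hint : Integrable (fun u : ℝ × ℝ => u.2) ν := by
    have h2 : MemLp (fun u : ℝ × ℝ => u.2) 2 ν :=
      (memLp_two_iff_integrable_sq measurable_snd.aestronglyMeasurable).2 hν.S2
    exact h2.integrable (by norm_num)
  have hae : (fun u : ℝ × ℝ => L * (1 - a) * max u.2 0) =ᵐ[ν] fun u => L * (1 - a) * u.2 := by
    filter_upwards [hν.nn] with u hu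
    rw [max_eq_left hu.2]
  rw [← integral_const_mul, ← integral_congr_ae hae]
  rw [ofReal_integral_eq_lintegral_ofReal]
  · exact (hint.const_mul _).congr hae.symm
  · exact Filter.Eventually.of_forall fun u =>
      mul_nonneg (mul_nonneg hL (by linarith)) (le_max_right _ _)

theorem op_cmp (hKWB : S_KWB) {k : ℕ} {ν : Measure (ℝ × ℝ)} (hν : Inp k ν) {L a c d : ℝ}
    (hL : 0 ≤ L) (ha : a ≤ 1) {φ : (Fin k → ℝ) → ℝ≥0∞} (hφ : Lip L φ) (h : |c - d| ≤ 1 - a)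
    (w : Fin k → ℝ) :
    op ν c φ w ≤ op ν d φ w + ENNReal.ofReal (L * (1 - a) * ∫ u, u.2 ∂ν) := by
  unfold op
  rw [← err hν hL ha, ← lintegral_add_right]
  · exact lintegral_mono fun u => lip_stp hKWB hL hφ h w u
  · exact (measurable_const.mul (measurable_snd.max measurable_const)).ennreal_ofReal

theorem int_cmp (hKWB : S_KWB) {k : ℕ} {ν : Measure (ℝ × ℝ)} (hν : Inp k ν) {L a c d : ℝ}
    (hL : 0 ≤ L) (ha : a ≤ 1) {φ : (Fin k → ℝ) → ℝ≥0∞} (hφ : Lip L φ) (h : |c - d| ≤ 1 - a)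
    (π : Measure (Fin k → ℝ)) [IsProbabilityMeasure π] :
    ∫⁻ w, op ν c φ w ∂π ≤ ∫⁻ w, op ν d φ w ∂π + ENNReal.ofReal (L * (1 - a) * ∫ u, u.2 ∂ν) := by
  calc ∫⁻ w, op ν c φ w ∂π
      ≤ ∫⁻ w, (op ν d φ w + ENNReal.ofReal (L * (1 - a) * ∫ u, u.2 ∂ν)) ∂π :=
        lintegral_mono fun w => op_cmp hKWB hν hL ha hφ h w
    _ = _ := by rw [lintegral_add_right _ measurable_const]; simp

theorem main (hKWB : S_KWB) : S_PERT := by
  intro k ν p a b L π φ hν hp0 hp1 ha0 ha1 hL hSt hφm hφ1 hφL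
  haveI := hν.prob
  haveI := hSt.prob
  have hB : 0 ≤ ∫ u, u.2 ∂ν := hν.Spos.le
  have hc : 0 ≤ L * (1 - a) * ∫ u, u.2 ∂ν := mul_nonneg (mul_nonneg hL (by linarith)) hB
  have hinv := hSt.inv φ hφm
  have hle1 : ∀ c : ℝ, ∫⁻ w, op ν c φ w ∂π ≤ 1 := by
    intro c
    calc ∫⁻ w, op ν c φ w ∂π ≤ ∫⁻ _, 1 ∂π := lintegral_mono fun w => op_le_one c hφ1 w
      _ = 1 := by simp
  have hsum : ENNReal.ofReal (1 - p) + ENNReal.ofReal p = 1 := by
    rw [← ENNReal.ofReal_add (by linarith) hp0]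
    simp
  have h1p : ENNReal.ofReal (1 - p) ≤ 1 := by
    rw [← hsum]; exact le_self_add
  rw [ENNReal.ofReal_add hc hp0]
  constructor
  · rw [hinv, ← add_assoc]
    refine add_le_add ?_ ?_
    · calc ENNReal.ofReal (1 - p) * ∫⁻ w, op ν a φ w ∂π ≤ 1 * ∫⁻ w, op ν a φ w ∂π :=
            mul_le_mul' h1p le_rfl
        _ = ∫⁻ w, op ν a φ w ∂π := one_mul _
        _ ≤ _ := int_cmp hKWB hν hL ha1 hφL (by rw [abs_sub_comm, abs_of_nonneg] <;> linarith) π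
    · calc ENNReal.ofReal p * ∫⁻ w, op ν b φ w ∂π ≤ ENNReal.ofReal p * 1 :=
            mul_le_mul' le_rfl (hle1 b)
        _ = ENNReal.ofReal p := mul_one _
  · calc ∫⁻ w, op ν 1 φ w ∂π
        ≤ ∫⁻ w, op ν a φ w ∂π + ENNReal.ofReal (L * (1 - a) * ∫ u, u.2 ∂ν) :=
          int_cmp hKWB hν hL ha1 hφL (by rw [abs_of_nonneg] <;> linarith) π
      _ ≤ (∫⁻ w, φ w ∂π + ENNReal.ofReal p) + ENNReal.ofReal (L * (1 - a) * ∫ u, u.2 ∂ν) := by
          refine add_le_add ?_ le_rfl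
          calc ∫⁻ w, op ν a φ w ∂π
              = (ENNReal.ofReal (1 - p) + ENNReal.ofReal p) * ∫⁻ w, op ν a φ w ∂π := by
                rw [hsum, one_mul]
            _ = ENNReal.ofReal (1 - p) * ∫⁻ w, op ν a φ w ∂π +
                ENNReal.ofReal p * ∫⁻ w, op ν a φ w ∂π := add_mul _ _ _
            _ ≤ ∫⁻ w, φ w ∂π + ENNReal.ofReal p := by
                refine add_le_add ?_ ?_
                · rw [hinv]; exact le_self_add
                · calc ENNReal.ofReal p * ∫⁻ w, op ν a φ w ∂π ≤ ENNReal.ofReal p * 1 :=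
                        mul_le_mul' le_rfl (hle1 a)
                    _ = ENNReal.ofReal p := mul_one _
      _ = _ := by rw [add_assoc, add_comm (ENNReal.ofReal p)]

end Pool.Agent.Helper32.HQ.PERT
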