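import Pool.Agent.Helper98.HQ.Spec

/-! Part TEL: `n` steps. -/

set_option autoImplicit false

open MeasureTheory Filter Topology
open scoped ENNReal NNReal

namespace Pool.Agent.Helper32.HQ.TEL

open Pool.Agent.Helper98.HQ

theorem main (hPERT : S_PERT) (hLIPP : S_LIPP) : S_TEL := by
  intro k ν p a b L π φ n hν hp0 hp1 ha0 ha1 hL hSt hφm hφ1 hφL
  have hB : 0 ≤ ∫ u, u.2 ∂ν := hν.Spos.le
  have hc : 0 ≤ L * (1 - a) * (∫ u, u.2 ∂ν) + p :=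
    add_nonneg (mul_nonneg (mul_nonneg hL (by linarith)) hB) hp0
  induction n with
  | zero => simp
  | succ n ih =>
    obtain ⟨m1, m2, m3⟩ := hLIPP k ν L φ hν.prob hL hφm hφ1 hφL n
    obtain ⟨q1, q2⟩ := hPERT k ν p a b L π ((op ν 1)^[n] φ) hν hp0 hp1 ha0 ha1 hL hSt m1 m2 m3
    have e : ENNReal.ofReal (((n + 1 : ℕ) : ℝ) * (L * (1 - a) * (∫ u, u.2 ∂ν) + p)) =
        ENNReal.ofReal (L * (1 - a) * (∫ u, u.2 ∂ν) + p) +
          ENNReal.ofReal (n * (L * (1 - a) * (∫ u, u.2 ∂ν) + p)) := by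
      rw [← ENNReal.ofReal_add hc (mul_nonneg (Nat.cast_nonneg n) hc)]
      congr 1
      push_cast
      ring
    rw [Function.iterate_succ_apply', e]
    constructor
    · calc ∫⁻ w, φ w ∂π ≤ ∫⁻ w, (op ν 1)^[n] φ w ∂π +
            ENNReal.ofReal (n * (L * (1 - a) * (∫ u, u.2 ∂ν) + p)) := ih.1
        _ ≤ (∫⁻ w, op ν 1 ((op ν 1)^[n] φ) w ∂π +
              ENNReal.ofReal (L * (1 - a) * (∫ u, u.2 ∂ν) + p)) +
            ENNReal.ofReal (n * (L * (1 - a) * (∫ u, u.2 ∂ν) + p)) := add_le_add q1 le_rfl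
        _ = _ := add_assoc _ _ _
    · calc ∫⁻ w, op ν 1 ((op ν 1)^[n] φ) w ∂π ≤ ∫⁻ w, (op ν 1)^[n] φ w ∂π +
              ENNReal.ofReal (L * (1 - a) * (∫ u, u.2 ∂ν) + p) := q2
        _ ≤ (∫⁻ w, φ w ∂π + ENNReal.ofReal (n * (L * (1 - a) * (∫ u, u.2 ∂ν) + p))) +
            ENNReal.ofReal (L * (1 - a) * (∫ u, u.2 ∂ν) + p) := add_le_add ih.2 le_rfl
        _ = _ := by rw [add_assoc, add_comm (ENNReal.ofReal (n * _))]

end Pool.Agent.Helper32.HQ.TEL
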